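import Pool.Agent.Work.MP_db9399_sw.Mach
import Pool.Agent.Work.MP_db9399_ot_helper1.KERN
import Pool.Agent.Work.MP_db9399_sl.Interface

/-!
# MP_db9399, PHASE 2 (short spots): THEOREM OUT with given own colours and labels (owner helper1)

OVS: the graph outside the spots and between the spots (without light-light edges) is coloured for
given own colours of the vertices outside the spots; the labels are chosen before the own colours.
See `BLUEPRINT.md`.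
-/

set_option autoImplicit false

namespace Pool.Agent.Work.MP_db9399_sw

open Finset Classical
open Pool.Agent.Work.MP_db9399_all (nb)
open Pool.Agent.Work.MP_db9399_px (ee)
open Pool.Agent.Work.MP_db9399_dn (IsMat Tot)
open Pool.Agent.Work.MP_db9399_bg (den cl LabP HPre)
open Pool.Agent.Work.MP_db9399_lc (BL)
open Pool.Agent.Work.MP_db9399_lh (Lh ce su sp pt)
open Pool.Agent.Work.MP_db9399_ot (BH Cls)
open Pool.Agent.Work.MP_db9399_ot.helper1 (Kp Lb kt)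
open Pool.Agent.Work.MP_db9399_sl (InS Same Gout Gss Gin Gex Bip Nsc Out)
open _root_.MP_db9399_co

universe u

/-! ## Labels -/

section labels
variable {V : Type u} [Fintype V]

/-- the average of `Φ` over all labellings -/
noncomputable def avgL {T : Type} [Fintype T] (Φ : (V → T) → ℝ) : ℝ :=
  (∑ f : V → T, Φ f) / Fintype.card (V → T)

/-- Tests: `Φ j` changes by at most `c j v` if the label of `v` changes; every vertex is in at most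
`d ^ 10` tests; the allowed error `t j` is large enough. -/
structure TQ (s : ℝ) (d : ℕ) {T : Type} {J : Type u} [Fintype J] (Φ : J → (V → T) → ℝ)
    (c : J → V → ℝ) (t : J → ℝ) : Prop where
  c0 : ∀ j v, 0 ≤ c j v
  lip : ∀ j v (f f' : V → T), (∀ w, w ≠ v → f w = f' w) → |Φ j f - Φ j f'| ≤ c j v
  num : ∀ v, (univ.filter (fun j => c j v ≠ 0)).card ≤ d ^ 10
  t0 : ∀ j, 0 < t j
  big : ∀ j, s * (Real.log d ^ 2 + ((univ.filter (fun v => c j v ≠ 0)).card : ℝ) / d) *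
    ∑ v, c j v ^ 2 ≤ t j ^ 2

/-- degrees and local density (the first two parts of `LabP`) -/
structure LabD {T : Type} [Fintype T] (G : SimpleGraph V) (d : ℕ) (σ : ℝ) (lab : V → T) :
    Prop where
  deg : ∀ v (P : Finset T), |((nb G v ∩ cl lab P).card : ℝ) - den P * (nb G v).card| ≤ σ * d
  sps : ∀ v (P : Finset T), ee G (nb G v ∩ cl lab P) (nb G v ∩ cl lab P) ≤
    den P ^ 2 * ee G (nb G v) (nb G v) + σ * (d : ℝ) ^ 2

end labels

/-- LABQ (block; base LABF and LABT, Work/MP_db9399_vt_helper6/LABT.lean; for the tests McDiarmid,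
`PBM` of MP_db9399_all or the version used in `Stmt_LIN`): random labels with tests. The tests have
a support of any size, `t j ^ 2 / ∑ c ^ 2 ≥ s (log ^ 2 d + |support| / d)` pays for the weight
`exp (2 T |support|)`, `T` about `1 / (C d)`. -/
def Stmt_LABQ : Prop :=
  ∀ (T : Type) [Fintype T] [Nonempty T] (F : ℕ) (σ c1 ρ s : ℝ), 0 < σ → 0 < c1 → 0 < ρ →
    0 < s → ∃ d0 : ℕ, ∀ {V : Type u} [Fintype V] (Gs : Fin F → SimpleGraph V) (d : ℕ)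
      (Ds : Fin F → ℕ) (J : Type u) [Fintype J] (Φ : J → (V → T) → ℝ) (c : J → V → ℝ)
      (t : J → ℝ), d0 ≤ d → (∀ i v, (nb (Gs i) v).card ≤ d) →
      (∀ i, ρ * d ≤ Ds i ∧ Ds i ≤ d) → TQ s d Φ c t →
      ∃ lab : V → T, (∀ i, LabP (Gs i) (Ds i) σ c1 lab) ∧ ∀ j, |Φ j lab - avgL (Φ j)| ≤ t j

/-! ## The colours -/

/-- `K0` all colours, `E1` a few of them, `cs b` = class of the colour `b` (`none`: host), `ow b` =
the own palette containing `b` -/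
structure ColD {k n m r : ℕ} (η κ : ℝ) (d D : ℕ) (K0 E1 : Finset (Fin k))
    (cs : Fin k → Option (Fin n)) (ow : Fin k → Option (ZMod (2 * m + 1) × Fin (r + 1))) :
    Prop where
  nD : |((n : ℝ) + 1) * D - d| ≤ η * d
  K0c : K0.card = d + 2
  E1K : E1 ⊆ K0
  E1c : (E1.card : ℝ) ≤ η * D
  cnt : ∀ i, (1 - η) * D ≤ ((K0.filter (fun b => b ∉ E1 ∧ cs b = some i)).card : ℝ)
  owK : ∀ b q, ow b = some q → b ∈ K0 ∧ b ∉ E1
  owl : ∀ q, (1 - κ) * d ≤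
    (2 * m + 1) * (r + 1) * ((univ.filter (fun b => ow b = some q)).card : ℝ)
  owu : ∀ q, 2 * ((2 * m + 1) * (r + 1) * (univ.filter (fun b => ow b = some q)).card) ≤ 3 * d

/-- the run of the machine for near-regular graphs; `fi i` = part of the vertices which may be
missed in the rounds of the class `i` -/
structure Run {V : Type u} [Fintype V] {k n l m r K K1 S : ℕ} (G H : SimpleGraph V)
    (Gc : Fin n → SimpleGraph V) (UH : Finset V) (EH : SimpleGraph V) (tu : V → Fin k)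
    (fi : Fin n → ZMod 3) (K0 E1 : Finset (Fin k)) (cs : Fin k → Option (Fin n))
    (sy : Fin k → Fin (K1 + 1) × Fin (K1 + 1)) (lab : V → Lh l m r K K1 S) (c : V → Fin k)
    (t : V → V → Fin k) : Prop where
  tot : Tot G c t
  te : ∀ v v', EH.Adj v v' → t v v' = tu v
  tK : ∀ v v', G.Adj v v' → ¬ EH.Adj v v' → t v v' ∈ K0
  edg : ∀ v v', G.Adj v v' → ¬ EH.Adj v v' → t v v' ∉ E1 →
    H.Adj v v' ∨ ∃ i, cs (t v v') = some i ∧ (Gc i).Adj v v'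
  e1 : ∀ v v', G.Adj v v' → ¬ EH.Adj v v' → t v v' ∈ E1 → H.Adj v v' ∨
    (v ∉ UH ∧ v' ∉ UH ∧ (sp (lab v) = (sy (t v v')).1 ∨ sp (lab v) = (sy (t v v')).2) ∧
      (sp (lab v') = (sy (t v v')).1 ∨ sp (lab v') = (sy (t v v')).2))
  mis : ∀ v, ∀ b ∈ K0, b ≠ c v → (∀ w, G.Adj v w → t v w ≠ b) →
    (v ∈ UH → b ∉ E1 ∧ cs b = none) ∧
    (v ∉ UH → ¬ mM (lab v) → b ∉ E1 ∧ ∀ i, cs b = some i → fi i = pt (lab v))

/-- NRMV (helper1, from the machine blocks): `ot.Stmt_NRMC` with given own colours. The palettes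
are chosen before the labels, the labels before the own colours `c`. -/
def Stmt_NRMV : Prop :=
  ∀ (g gh η κ : ℝ) (n : ℕ) (fi : Fin n → ZMod 3) (Km : ℕ), 0 < g → g ≤ 1 / 10 → 0 < gh →
    gh ≤ 1 / 10 → 0 < η → η ≤ 1 / 10 → 0 < κ → κ ≤ 1 → 0 < n →
    (∀ j, 3 * (univ.filter (fun i => fi i = j)).card = n) →
    ∃ (l m r K K1 S : ℕ) (ε0 : ℝ), Km ≤ K1 ∧ 20 ≤ l ∧ 1 ≤ m ∧ 0 < ε0 ∧
    ∀ (X : Type) [Fintype X] [Nonempty X] (F : ℕ) (σ s : ℝ), 0 < σ → 0 < s → ∃ d0 : ℕ,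
    ∀ {V : Type u} [Fintype V] (G H : SimpleGraph V) (Gc : Fin n → SimpleGraph V)
      (d D k : ℕ) (UH : Finset V) (c0 : V → Fin k) (EH : SimpleGraph V) (tu : V → Fin k),
      d0 ≤ d → d + 2 ≤ k → BL g ε0 G d → BH gh ε0 ((1 + gh) * d) H D → Cls ε0 G H Gc d D →
      HPre G UH c0 EH tu →
      ∃ (K0 E1 : Finset (Fin k)) (cs : Fin k → Option (Fin n))
        (ow : Fin k → Option (ZMod (2 * m + 1) × Fin (r + 1)))
        (sy : Fin k → Fin (K1 + 1) × Fin (K1 + 1)),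
        ColD η κ d D K0 E1 cs ow ∧
        ∀ (Qs : Fin F → SimpleGraph V) (J : Type u) [Fintype J]
          (Φ : J → (V → Lh l m r K K1 S × X) → ℝ) (ct : J → V → ℝ) (tt : J → ℝ),
          (∀ i v, (nb (Qs i) v).card ≤ 2 * d) → TQ s d Φ ct tt →
          ∃ lab : V → Lh l m r K K1 S × X, LabP G d σ 1 lab ∧ (∀ i, LabP (Qs i) d σ 1 lab) ∧
            (∀ j, |Φ j lab - avgL (Φ j)| ≤ tt j) ∧
            ∀ c : V → Fin k, (∀ v ∈ UH, c v = c0 v) →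
              (∀ v, v ∉ UH → ow (c v) = some (ce (lab v).1, su (lab v).1)) →
              (∀ v v', G.Adj v v' → c v ≠ c v') →
              ∃ t : V → V → Fin k,
                Run G H Gc UH EH tu fi K0 E1 cs sy (fun v => (lab v).1) c t

/-- EXTC (block, from `vt.Stmt_SPVE`; compare Work/MP_db9399_ot_helper49/VCOLC.lean): the own colours
of the free vertices `Fr` (greedily, the gadgets `Wg` are not yet coloured) and of the gadgets
(SPVE for the graph restricted to the gadgets of one class, `F x` = the colour of the neighbour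
outside `Wg`; sparse because of `BL` and `LabP.sps`, as in VCOLC). -/
def Stmt_EXTC : Prop :=
  ∀ g : ℝ, 0 < g → g ≤ 1 / 10 → ∃ κ : ℝ, 0 < κ ∧ κ ≤ 1 ∧ ∀ N : ℕ, 0 < N →
    ∃ (σ ε0 : ℝ) (d0 : ℕ), 0 < σ ∧ 0 < ε0 ∧
    ∀ {V : Type u} [Fintype V] {T Q C : Type} [Fintype T] [Fintype Q] (G : SimpleGraph V)
      (d : ℕ) (c1 : ℝ) (UH Fr Wg : Finset V) (lab : V → T) (fq : T → Q) (P : Q → Finset C)
      (c : V → C), d0 ≤ d → BL g ε0 G d → LabP G d σ c1 lab → Fintype.card Q = N →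
      (∀ q, den (univ.filter (fun t => fq t = q)) = 1 / (N : ℝ)) →
      (∀ q, (1 - κ) * d ≤ N * ((P q).card : ℝ)) → (∀ q, 2 * (N * (P q).card) ≤ 3 * d) →
      (∀ q q', q ≠ q' → Disjoint (P q) (P q')) → Disjoint Fr Wg → Disjoint UH (Fr ∪ Wg) →
      (∀ v, (nb G v ∩ UH).card ≤ 2) → (∀ x ∈ Wg, (nb G x \ Wg).card ≤ 1) →
      (∀ s ∈ Fr, ∀ q,
        2 * (N * ((nb G s \ Wg).filter (fun v => fq (lab v) = q)).card) ≤ d) →
      (∀ v, v ∉ UH → v ∉ Fr → v ∉ Wg → c v ∈ P (fq (lab v))) →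
      (∀ v w, v ∉ Fr → v ∉ Wg → w ∉ Fr → w ∉ Wg → G.Adj v w → c v ≠ c w) →
      ∃ c' : V → C, (∀ v, v ∉ Fr → v ∉ Wg → c' v = c v) ∧
        (∀ v, v ∉ UH → c' v ∈ P (fq (lab v))) ∧ ∀ v w, G.Adj v w → c' v ≠ c' w

/-! ## OUTV: arbitrary graphs -/

/-- the part of the vertices which may be missed in the rounds of a class: its second index mod 3 -/
def fiR {M1 R0 n : ℕ} (e : Kp M1 × Fin R0 ≃ Fin n) (i : Fin n) : ZMod 3 :=
  (((e.symm i).2 : ℕ) : ZMod 3)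

/-- the run for an arbitrary graph. `Sp` = light spot vertices (typed by `lb`), `Fr` = vertices
without own colour. -/
structure RunR {V : Type u} [Fintype V] {k n l m r K K1 S M1 R0 : ℕ}
    (e : Kp M1 × Fin R0 ≃ Fin n) (G : SimpleGraph V) (Sp Fr UH : Finset V)
    (EH : SimpleGraph V) (tu : V → Fin k) (K0 E1 : Finset (Fin k))
    (cs : Fin k → Option (Fin n)) (sy : Fin k → Fin (K1 + 1) × Fin (K1 + 1))
    (lb : V → Lb M1 R0) (lab : V → Lh l m r K K1 S) (c : V → Fin k) (t : V → V → Fin k) :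
    Prop where
  ts : ∀ v w, t v w = t w v
  te : ∀ v w, EH.Adj v w → t v w = tu v
  tK : ∀ v w, G.Adj v w → ¬ EH.Adj v w → t v w ∈ K0
  ti : ∀ v, Set.InjOn (t v) (nb G v : Set V)
  tc : ∀ v w, G.Adj v w → v ∉ Fr → t v w ≠ c v
  typ : ∀ s ∈ Sp, (lb s).2.2 ≠ none → ∀ y, G.Adj s y → t s y ∉ E1 →
    ∃ i κ', cs (t s y) = some i ∧ (lb s).2.2 = some (κ', (e.symm i).2) ∧
      kt (e.symm i).1 ≠ some (lb s).1
  spl : ∀ s ∈ Sp, (lb s).2.2 ≠ none → ∀ y, G.Adj s y → t s y ∈ E1 → y ∉ UH ∧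
    (sp (lab s) = (sy (t s y)).1 ∨ sp (lab s) = (sy (t s y)).2) ∧
    (sp (lab y) = (sy (t s y)).1 ∨ sp (lab y) = (sy (t s y)).2)
  mis : ∀ v, v ∉ Fr → ∃ b ∈ K0, b ≠ c v ∧ (∀ w, G.Adj v w → t v w ≠ b) ∧
    (v ∈ UH → b ∉ E1 ∧ cs b = none) ∧
    (v ∉ UH → ¬ mM (lab v) → b ∉ E1 ∧ ∀ i, cs b = some i → fiR e i = pt (lab v))

/-- OUTV (helper1, from EMBB, LABQ, THINU, NRMV, EXTC). `θ` does not depend on `g`. -/
def Stmt_OUTV : Prop :=
  ∀ (π : ℝ) (Rm : ℕ), 0 < π → π < 1 / 3 → ∃ (M1 R0 n : ℕ) (e : Kp M1 × Fin R0 ≃ Fin n)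
    (θ : ℝ), Rm ≤ R0 ∧ 0 < R0 ∧ 3 ∣ R0 ∧ π * (3 * M1 + 1) + 2 ≤ M1 ∧ 0 < θ ∧ θ ≤ 1 / 100 ∧
    ∀ (g η κ : ℝ) (Km : ℕ), 0 < g → g ≤ 1 / 10 → 0 < η → η ≤ 1 / 10 → 0 < κ → κ ≤ 1 →
    ∃ l m r K K1 S : ℕ, Km ≤ K1 ∧ 20 ≤ l ∧ 1 ≤ m ∧
    ∀ (X : Type) [Fintype X] [Nonempty X] (F : ℕ) (σ s : ℝ), 0 < σ → 0 < s → ∃ d0 : ℕ,
    ∀ {V : Type u} [Fintype V] (G : SimpleGraph V) (d k : ℕ) (Sp Fr UH : Finset V)
      (c0 : V → Fin k) (EH : SimpleGraph V) (tu : V → Fin k), d0 ≤ d →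
      d ≤ Fintype.card V → d + 2 ≤ k → (∀ v, (nb G v).card ≤ d) →
      (∀ s ∈ Sp, ((nb G s).card : ℝ) ≤ θ * d) → (∀ s ∈ Fr, 4 * (nb G s).card ≤ d) →
      Sp ⊆ Fr → Disjoint Fr UH → (∀ s ∈ Sp, ∀ s' ∈ Sp, ¬ G.Adj s s') → Bip g G d →
      Nsc g G d → HPre G UH c0 EH tu →
      ∀ (Qs : Fin F → SimpleGraph V) (J : Type u) [Fintype J] (Φ : J → (V → Lb M1 R0) → ℝ)
        (ct : J → V → ℝ) (tt : J → ℝ), (∀ i v, (nb (Qs i) v).card ≤ 2 * d) →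
        TQ s d Φ ct tt →
      ∃ lb : V → Lb M1 R0, (∀ i, LabD (Qs i) d σ lb) ∧ (∀ j, |Φ j lb - avgL (Φ j)| ≤ tt j) ∧
      ∃ (D : ℕ) (K0 E1 : Finset (Fin k)) (cs : Fin k → Option (Fin n))
        (ow : Fin k → Option (ZMod (2 * m + 1) × Fin (r + 1)))
        (sy : Fin k → Fin (K1 + 1) × Fin (K1 + 1)), ColD η κ d D K0 E1 cs ow ∧
      ∀ (Qs' : Fin F → SimpleGraph V) (J' : Type u) [Fintype J']
        (Φ' : J' → (V → Lh l m r K K1 S × X) → ℝ) (ct' : J' → V → ℝ) (tt' : J' → ℝ),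
        (∀ i v, (nb (Qs' i) v).card ≤ 2 * d) → TQ s d Φ' ct' tt' →
      ∃ lab : V → Lh l m r K K1 S × X, LabD G d σ lab ∧ (∀ i, LabD (Qs' i) d σ lab) ∧
        (∀ j, |Φ' j lab - avgL (Φ' j)| ≤ tt' j) ∧
        ∀ c : V → Fin k, (∀ v ∈ UH, c v = c0 v) →
          (∀ v, v ∉ UH → v ∉ Fr → ow (c v) = some (ce (lab v).1, su (lab v).1)) →
          (∀ v w, v ∉ Fr → w ∉ Fr → G.Adj v w → c v ≠ c w) →
          ∃ t : V → V → Fin k,
            RunR e G Sp Fr UH EH tu K0 E1 cs sy lb (fun v => (lab v).1) c t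

/-! ## OVS: the graph outside the spots and between the spots -/

section ovs
variable {V : Type u}

/-- `v` is a light vertex of a spot; `Hv` = heavy vertices -/
def Lgt (Ys : Finset (Finset V)) (Hv : Finset V) (v : V) : Prop := InS Ys v ∧ v ∉ Hv

/-- the edges which are coloured by the machine: all edges outside the spots and between different
spots, except those between two light vertices -/
def Gxh (G : SimpleGraph V) (Ys : Finset (Finset V)) (Hv : Finset V) : SimpleGraph V where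
  Adj v w := G.Adj v w ∧ ¬ Same Ys v w ∧ ¬ (Lgt Ys Hv v ∧ Lgt Ys Hv w)
  symm := ⟨fun _ _ h => ⟨h.1.symm, fun ⟨Y, hY, h1, h2⟩ => h.2.1 ⟨Y, hY, h2, h1⟩,
    fun h' => h.2.2 ⟨h'.2, h'.1⟩⟩⟩
  loopless := ⟨fun v h => G.loopless.irrefl v h.1⟩

/-- the edges between light vertices of different spots, without the edges of `EH` -/
def Grh (G EH : SimpleGraph V) (Ys : Finset (Finset V)) (Hv : Finset V) : SimpleGraph V where
  Adj v w := G.Adj v w ∧ ¬ Same Ys v w ∧ Lgt Ys Hv v ∧ Lgt Ys Hv w ∧ ¬ EH.Adj v w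
  symm := ⟨fun _ _ h => ⟨h.1.symm, fun ⟨Y, hY, h1, h2⟩ => h.2.1 ⟨Y, hY, h2, h1⟩,
    h.2.2.2.1, h.2.2.1, fun h' => h.2.2.2.2 h'.symm⟩⟩
  loopless := ⟨fun v h => G.loopless.irrefl v h.1⟩

variable [Fintype V]

/-- the exports of the run: types of the colours at the light vertices, colours missing at the
vertices outside the spots -/
structure Exs {k n l m r K K1 S M1 R0 : ℕ} (e : Kp M1 × Fin R0 ≃ Fin n) (G : SimpleGraph V)
    (Ys : Finset (Finset V)) (Hv UH : Finset V) (K0 E1 : Finset (Fin k))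
    (cs : Fin k → Option (Fin n)) (sy : Fin k → Fin (K1 + 1) × Fin (K1 + 1))
    (lb : V → Lb M1 R0) (lab : V → Lh l m r K K1 S) (c : V → Fin k) (t : V → V → Fin k)
    (E : V → Finset (Fin k)) (μ : V → Fin k) : Prop where
  typ : ∀ v κ' j, Lgt Ys Hv v → v ∉ UH → (lb v).2.2 = some (κ', j) → ∀ b ∈ E v,
    (b ∉ E1 ∧ ∃ i, cs b = some i ∧ (e.symm i).2 = j) ∨
      (b ∈ E1 ∧ (sp (lab v) = (sy b).1 ∨ sp (lab v) = (sy b).2))
  edg : ∀ v y κ' j, Lgt Ys Hv v → v ∉ UH → (lb v).2.2 = some (κ', j) → (Gxh G Ys Hv).Adj v y →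
    (t v y ∉ E1 ∧ ∃ i, cs (t v y) = some i ∧ (e.symm i).2 = j) ∨
      (t v y ∈ E1 ∧ y ∉ UH ∧ (sp (lab v) = (sy (t v y)).1 ∨ sp (lab v) = (sy (t v y)).2) ∧
        (sp (lab y) = (sy (t v y)).1 ∨ sp (lab y) = (sy (t v y)).2))
  mis : ∀ y, ¬ InS Ys y → μ y ∈ K0 ∧ μ y ≠ c y ∧ ∀ w, G.Adj y w → t y w ≠ μ y
  misU : ∀ y ∈ UH, ¬ InS Ys y → μ y ∉ E1 ∧ cs (μ y) = none
  misO : ∀ y, ¬ InS Ys y → y ∉ UH → ¬ mM (lab y) →
    μ y ∉ E1 ∧ ∀ i, cs (μ y) = some i → fiR e i = pt (lab y)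

end ovs

/-- OVS (helper6, from OUTV; compare Work/MP_db9399_sl_helper6/OUTP.lean and `outR`,
Work/MP_db9399_ot_helper1/OUTR.lean): pendant edges at the spot vertices of degree less than `d`
(pendants are free vertices); `Sp` = light spot vertices outside `UH`, `Fr` = spot vertices outside
`UH` and pendants. `C j` = all colours of classes of type `j`, `p`, `a` from the labels `lb`, `Z` =
special light vertices, `UH` and `Hv`. -/
def Stmt_OVS : Prop :=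
  ∀ (δ π : ℝ) (Rm : ℕ), 0 < δ → 0 < π → π < 1 / 3 →
    ∃ (M1 R0 n : ℕ) (e : Kp M1 × Fin R0 ≃ Fin n) (θ : ℝ), Rm ≤ R0 ∧ 0 < R0 ∧ 3 ∣ R0 ∧
    0 < θ ∧ θ ≤ 1 / 100 ∧
    ∀ (g η κ : ℝ) (Km : ℕ), 0 < g → g ≤ 1 / 10 → 0 < η → η ≤ 1 / 10 → 0 < κ → κ ≤ 1 →
    ∃ l m r K K1 S : ℕ, Km ≤ K1 ∧ 20 ≤ l ∧ 1 ≤ m ∧
    ∀ (X : Type) [Fintype X] [Nonempty X] (F : ℕ) (σ s : ℝ), 0 < σ → 0 < s → ∃ d0 : ℕ,
    ∀ {V : Type u} [Fintype V] (G : SimpleGraph V) (d k : ℕ) (Ys : Finset (Finset V))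
      (Hv UH : Finset V) (c0 : V → Fin k) (EH : SimpleGraph V) (tu : V → Fin k), d0 ≤ d →
      d ≤ Fintype.card V → d + 2 ≤ k → (∀ v, (nb G v).card ≤ d) →
      (∀ Y ∈ Ys, Y.card ≤ 2 * d) → (∀ Y ∈ Ys, ∀ Y' ∈ Ys, Y ≠ Y' → Disjoint Y Y') →
      (∀ Y ∈ Ys, ∀ v ∈ Y, v ∉ Hv → (1 - θ) * d ≤ ((nb G v ∩ Y).card : ℝ)) →
      (∀ Y ∈ Ys, ∀ v ∈ Y, (9 / 10 : ℝ) * d ≤ ((nb G v ∩ Y).card : ℝ)) →
      (∀ v ∈ Hv, InS Ys v) → (∀ Y ∈ Ys, ((Y ∩ Hv).card : ℝ) ≤ δ / 4 * d) →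
      Bip g (Gout G Ys) d → Nsc g (Gout G Ys) d → HPre G UH c0 EH tu →
      (∀ Y ∈ Ys, (Y ∩ UH).card ≤ 2) →
      ∀ (Qs : Fin F → SimpleGraph V) (J : Type u) [Fintype J] (Φ : J → (V → Lb M1 R0) → ℝ)
        (ct : J → V → ℝ) (tt : J → ℝ), (∀ i v, (nb (Qs i) v).card ≤ 2 * d) →
        TQ s d Φ ct tt →
      ∃ lb : V → Lb M1 R0, (∀ i, LabD (Qs i) d σ lb) ∧ (∀ j, |Φ j lb - avgL (Φ j)| ≤ tt j) ∧
      ∃ (D : ℕ) (K0 E1 : Finset (Fin k)) (cs : Fin k → Option (Fin n))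
        (ow : Fin k → Option (ZMod (2 * m + 1) × Fin (r + 1)))
        (sy : Fin k → Fin (K1 + 1) × Fin (K1 + 1)), ColD η κ d D K0 E1 cs ow ∧
      ∀ (Qs' : Fin F → SimpleGraph V) (J' : Type u) [Fintype J']
        (Φ' : J' → (V → Lh l m r K K1 S × X) → ℝ) (ct' : J' → V → ℝ) (tt' : J' → ℝ),
        (∀ i v, (nb (Qs' i) v).card ≤ 2 * d) → TQ s d Φ' ct' tt' →
      ∃ lab : V → Lh l m r K K1 S × X, (∀ i, LabD (Qs' i) d σ lab) ∧
        (∀ j, |Φ' j lab - avgL (Φ' j)| ≤ tt' j) ∧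
        ∀ c : V → Fin k, (∀ v ∈ UH, c v = c0 v) → (∀ v, v ∉ UH → c v ∈ K0) →
          (∀ v, v ∉ UH → ¬ InS Ys v → ow (c v) = some (ce (lab v).1, su (lab v).1)) →
          (∀ v w, (InS Ys v → v ∈ UH) → (InS Ys w → w ∈ UH) → G.Adj v w → c v ≠ c w) →
          ∃ (t : V → V → Fin k) (E : V → Finset (Fin k)) (μ : V → Fin k),
            Out δ π G (Gxh G Ys Hv) (Grh G EH Ys Hv) EH d Ys UH c0 tu c t E K0
              (fun j => K0.filter (fun b => b ∉ E1 ∧ ∃ i, cs b = some i ∧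
                kt (e.symm i).1 = some j))
              (fun v => (lb v).1) (fun v => (lb v).2.1)
              (univ.filter (fun v => (lb v).2.2 = none ∨ v ∈ UH ∨ v ∈ Hv)) ∧
            Exs e G Ys Hv UH K0 E1 cs sy lb (fun v => (lab v).1) c t E μ

end Pool.Agent.Work.MP_db9399_sw
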