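import Pool.Agent.Work.MP_db9399_sw.Short

/-!
# MP_db9399, PHASE 2 (short spots): GUARD, guards in the spots of small outer degree (owner helper1)

In a short spot `Y` whose average outer degree (over the light vertices) is less than `log ^ 3 d` no
colour may become unusable (except by vertices of `UH`). `Hs` = heavy vertices. About `log ^ 8 d` random vertices of `Y` are guards; the outer
neighbours of the guards of `Y` will get different own colours. See `BLUEPRINT.md`.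
-/

set_option autoImplicit false

namespace Pool.Agent.Work.MP_db9399_sw

open Finset Classical
open Pool.Agent.Work.MP_db9399_all (nb)
open Pool.Agent.Work.MP_db9399_sl (InS Same Gss)

universe u

section defs
variable {V : Type u} [Fintype V]

/-- the short spots of small outer degree -/
noncomputable def sms (G : SimpleGraph V) (d : ℕ) (Hs : Finset V) (Ys : Finset (Finset V)) :
    Finset (Finset V) := (shs d Ys).filter (fun Y => wl G d Hs Y < Real.log d ^ 3 * Y.card)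

/-- number of neighbours outside the own spot -/
noncomputable def od (G : SimpleGraph V) (Ys : Finset (Finset V)) (v : V) : ℕ :=
  ((nb G v).filter (fun w => ¬ Same Ys v w)).card

/-- the guards `Gd`; `S j` = test sets in the spots `YJ j` -/
structure Grd (ε : ℝ) (G EH : SimpleGraph V) (d : ℕ) (Ys : Finset (Finset V))
    (UH Hs : Finset V) {J : Type u} (S YJ : J → Finset V) (Gd : Finset V) : Prop where
  mem : ∀ v ∈ Gd, v ∉ UH ∧ v ∉ Hs ∧ (∃ Y ∈ sms G d Hs Ys, v ∈ Y) ∧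
    (od G Ys v : ℝ) ≤ Real.log d ^ 5
  upp : ∀ Y ∈ sms G d Hs Ys, ((Y ∩ Gd).card : ℝ) ≤ 2 * Real.log d ^ 8
  ind : ∀ v ∈ Gd, ∀ w ∈ Gd, ¬ (Gss G EH Ys).Adj v w
  ss : ∀ Y ∈ shs d Ys, ((∑ v ∈ Y, (nb (Gss G EH Ys) v ∩ Gd).card : ℕ) : ℝ) ≤
    ε * Real.log d ^ 8 * Y.card
  out : ∀ w, ¬ InS Ys w → ((nb G w ∩ Gd).card : ℝ) ≤ Real.log d ^ 9
  tst : ∀ j, |((S j ∩ Gd).card : ℝ) - (S j).card / (YJ j).card * Real.log d ^ 8| ≤
    ε * Real.log d ^ 8

end defs

/-- GUARD (block, from `Stmt_LLLI`, Work/MP_db9399_all_helper6/LLLI.lean, with `T = 1 / d`). A vertex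
`v ∉ UH ∪ Hs` of `Y ∈ sms` with `od v ≤ log ^ 5 d` (all but `|Y| / log ^ 2 d + |Y ∩ Hs| + 2` vertices
of `Y`, since the sum of `od` over `Y \ Hs` is at most `wl`) is a guard with probability about `log ^ 8 d / |Y|`. Events: two adjacent guards in
different spots (`≤ log ^ 5 d` pairs at every vertex, probability `4 log ^ 16 d / d ^ 2`); `ss`
(weights `|N(s) ∩ Y| ≤ log ^ 5 d` of the possible guards `s`, total weight at most
`wt Y ≤ η d |Y|`, mean at most `2 η log ^ 8 d |Y|`: Chernoff bound `exp (- c ε d log ^ 3 d)`, scope at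
most `η d |Y|`); `out`, `tst`, `upp`: sets with at most `2 d` elements, Chernoff bound
`exp (- c ε ^ 2 log ^ 8 d)`. -/
def Stmt_GUARD : Prop :=
  ∀ ε : ℝ, 0 < ε → ε ≤ 1 / 10 → ∃ (η : ℝ) (d0 : ℕ), 0 < η ∧
    ∀ {V : Type u} [Fintype V] (G EH : SimpleGraph V) (d : ℕ) (Ys : Finset (Finset V))
      (UH Hs : Finset V) (J : Type u) [Fintype J] (S YJ : J → Finset V), d0 ≤ d →
      (∀ v, (nb G v).card ≤ d) → (∀ Y ∈ Ys, ∀ Y' ∈ Ys, Y ≠ Y' → Disjoint Y Y') →
      (∀ Y ∈ Ys, (9 / 10 : ℝ) * d ≤ (Y.card : ℝ) ∧ Y.card ≤ 2 * d) →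
      (∀ Y ∈ Ys, (Y ∩ UH).card ≤ 2) → (∀ Y ∈ Ys, wt G d Y ≤ η * d * Y.card) →
      (∀ Y ∈ Ys, ((Y ∩ Hs).card : ℝ) ≤ η * Y.card) →
      (∀ j, YJ j ∈ sms G d Hs Ys ∧ S j ⊆ YJ j) →
      (∀ v, (univ.filter (fun j => v ∈ S j)).card ≤ d ^ 10) →
      ∃ Gd : Finset V, Grd ε G EH d Ys UH Hs S YJ Gd

end Pool.Agent.Work.MP_db9399_sw
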