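import Pool.Agent.Work.MP_db9399_all.Interface

/-!
# MP_db9399, PHASE 2 (short spots): LSB, independent random bijections with lists (owner helper1)

The vertices of all short spots get their own colours at the same time, by the lopsided local lemma
`MP_db9399_all.Stmt_AL` for independent random bijections in which heavy colours have lists of
positions and special positions have lists of (light) colours. See `BLUEPRINT.md`.
-/

set_option autoImplicit false

namespace Pool.Agent.Work.MP_db9399_sw

open Finset Classical

universe u

/-- the colours which the position `s` may get: `K i` = colours of the part `i`, `Hv i` = heavy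
colours of the part `i`, `L i b` = list of positions for the heavy colour `b`, `X` = special
positions, `W s` = colours for the special position `s` -/
noncomputable def Al {I S : Type u} {C : Type} (part : S → I) (K Hv : I → Finset C)
    (L : I → C → Finset S) (X : Finset S) (W : S → Finset C) (s : S) : Finset C :=
  if s ∈ X then W s else (K (part s)).filter (fun b => b ∈ Hv (part s) → s ∈ L (part s) b)

/-- Hypotheses of LSB. `Fb s` = forbidden colours at `s` (only used for light colours, forbidden
positions of heavy colours are not in the lists), `R` = conflicts between positions of different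
parts, `μ s b` = bound for the probability that the position `s` gets the colour `b`. -/
structure LSH {I S : Type u} [Fintype I] [Fintype S] {C : Type} (part : S → I)
    (K Hv : I → Finset C) (L : I → C → Finset S) (X : Finset S) (W : S → Finset C)
    (Fb : S → Finset C) (R : S → S → Prop) (μ : S → C → ℝ) : Prop where
  card : ∀ i, (K i).card = (univ.filter (fun s => part s = i)).card
  HK : ∀ i, Hv i ⊆ K i
  Lp : ∀ i, ∀ b ∈ Hv i, ∀ s ∈ L i b, part s = i ∧ s ∉ X
  WK : ∀ s ∈ X, W s ⊆ K (part s) \ Hv (part s)
  μ0 : ∀ s b, 0 ≤ μ s b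
  μl : ∀ s, s ∉ X → ∀ b ∈ K (part s), b ∉ Hv (part s) →
    1 ≤ μ s b * (((K (part s)).card : ℝ) - (Hv (part s)).card -
      (X.filter (fun s' => part s' = part s)).card)
  μh : ∀ i, ∀ b ∈ Hv i, ∀ s ∈ L i b, 1 ≤ μ s b * (((L i b).card : ℝ) - (Hv i).card)
  Lc : ∀ i, ∀ b ∈ Hv i, (Hv i).card < (L i b).card
  μx : ∀ s ∈ X, ∀ b ∈ W s, 1 ≤ μ s b * (((W s).card : ℝ) -
      (X.filter (fun s' => part s' = part s)).card)
  Wc : ∀ s ∈ X, (X.filter (fun s' => part s' = part s)).card < (W s).card
  Rs : ∀ s s', R s s' → R s' s
  Rp : ∀ s s', R s s' → part s ≠ part s'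
  row : ∀ s, ∑ b ∈ (Al part K Hv L X W s \ Hv (part s)) ∩ Fb s, μ s b +
    ∑ s' ∈ univ.filter (fun s' => R s s'),
      ∑ b ∈ Al part K Hv L X W s ∩ Al part K Hv L X W s', μ s b * μ s' b ≤ 1 / 64
  clm : ∀ i, ∀ b ∈ K i,
    ∑ s ∈ univ.filter (fun s => part s = i ∧ b ∈ (Al part K Hv L X W s \ Hv i) ∩ Fb s), μ s b +
    ∑ s ∈ univ.filter (fun s => part s = i ∧ b ∈ Al part K Hv L X W s),
      ∑ s' ∈ univ.filter (fun s' => R s s' ∧ b ∈ Al part K Hv L X W s'), μ s b * μ s' b ≤
    1 / 64

/-- LSB (block, from `Stmt_AL`, Work/MP_db9399_all_helper6/AL.lean). `Ω` = all maps `c : S → C` which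
map every part `i` bijectively onto `K i` with `c s ∈ Al s` (not empty: greedy, by `Lc`, `Wc`; the
other positions get the other colours, all light).
Bad events: `c s = b`, `b` light and in `Fb s`; `c s = b = c s'`, `R s s'`. Let `N` be the event that
none of some bad events without an atom in the row `s` or in the column `b` (in the part `i` of `s`)
happens. Switching `(s, b), (s', b') → (s, b'), (s', b)` does not leave `N` (and is injective, `s'` is
the new place of `b`): for `s ∉ X` and light `b` all `s' ∉ X` with `b'` light
(`≥ |K| - |Hv| - |X_i| - 1` choices), for heavy `b` all `s' ∈ L i b` with `b'` light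
(`≥ |L| - |Hv|` choices), for `s ∈ X` all `b' ∈ W s` which are at some `s' ∉ X` (`≥ |W s| - |X_i|`
choices). So `P(c s = b, N) ≤ μ s b P(N)`; for two parts the product. `Stmt_AL` with `x = 2 p`: every
event meets at most four lines (rows, columns), every line has total weight at most `1 / 32`
(ordered pairs are counted twice). -/
def Stmt_LSB : Prop :=
  ∀ {I S : Type u} [Fintype I] [Fintype S] {C : Type} (part : S → I) (K Hv : I → Finset C)
    (L : I → C → Finset S) (X : Finset S) (W : S → Finset C) (Fb : S → Finset C)
    (R : S → S → Prop) (μ : S → C → ℝ), LSH part K Hv L X W Fb R μ →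
    ∃ c : S → C, (∀ s, c s ∈ Al part K Hv L X W s) ∧
      (∀ s, c s ∈ Fb s → c s ∈ Hv (part s)) ∧
      (∀ s s', part s = part s' → c s = c s' → s = s') ∧ ∀ s s', R s s' → c s ≠ c s'

end Pool.Agent.Work.MP_db9399_sw
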