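import Pool.Agent.Work.MP_db9399_ot.Interface2
import Pool.Agent.Work.MP_db9399_hc.Interface

/-!
# MP_db9399, PHASE 2 (short spots): changes of the machine (owner helper1)

In the rounds of the colours `e x` only vertices outside `mM` are missed, in the rounds of the
colours `e1 y` only vertices of `mM`. See `BLUEPRINT.md`.
-/

set_option autoImplicit false

namespace Pool.Agent.Work.MP_db9399_sw

open Finset Classical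
open Pool.Agent.Work.MP_db9399_all (nb)
open Pool.Agent.Work.MP_db9399_px (LWalk hit ee)
open Pool.Agent.Work.MP_db9399_dn (NB IsMat Tot)
open Pool.Agent.Work.MP_db9399_sc (cut Crit Conn Env Fam Rnd Hv)
open Pool.Agent.Work.MP_db9399_bg (den cl LabP Good PN IsPat en enP Sep Near REnv r0 Deep Spr Ok
  Lbl bx c3f c3 rs rs_symm eR HPre Ix)
open Pool.Agent.Work.MP_db9399_lc (BL)
open Pool.Agent.Work.MP_db9399_lh (Cr Lh ce su kp io sp pt cr cy rf rx rr tj ty inM rP rR np nr eP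
  pr qr qe fq f0 ft Vq EndSX Vd UW VCol Rr Rf Jk Ub P0R PeR)
open Pool.Agent.Work.MP_db9399_ot (BH Cls Sit NDec UPar Lft)
open _root_.MP_db9399_co

universe u

section defs
variable {l m r K K1 S : ℕ}

/-- the labels of the vertices which may be missed in the rounds of the colours `e1 y` -/
def mM (t : Lh l m r K K1 S) : Prop := t.1.2.1.val = 2

end defs

section ctx
variable {V : Type u} [Fintype V] {l m r K K1 S : ℕ} {ι : Type}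

/-- `hc.OneRoundH`, only vertices outside `mM` are missed -/
def OneRoundH2 (g' δ : ℝ) (Hs : ι → SimpleGraph V) (Ds : ι → ℕ) (dd : ℕ)
    (lab : V → Lh l m r K K1 S) : Prop :=
  ∀ (κ : ι) (τ : Option (ZMod 3)) (i : ZMod 3) (F : SimpleGraph V) (a : ZMod (2 * m + 1))
    (h : Fin m) (U J : Finset V) (lg : ℕ) (hi : ℕ → ι) (Oi : ℕ → Finset V), τ ≠ some i →
    REnv (Hs κ) F (qr l m S τ (Ds κ)) δ lab (rP l r K K1 S a h τ) (rR l S τ) U J →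
    lg * (3 * (2 * m + 1)) ≤ dd →
    (∀ j < lg, Spr g' (Hs (hi j)) (Ds (hi j)) (3 * (2 * m + 1)) (Vq lab a i) (Oi j)) →
    ∃ (M : SimpleGraph V) (O : Finset V), M ≤ F ∧ IsMat M ∧ (∀ v w, M.Adj v w → v ∈ U) ∧
      (∀ v ∈ U, v ∉ O → (nb M v).Nonempty) ∧ O ⊆ U ∧
      (∀ v ∈ O, ce (lab v) = a ∧ pt (lab v) = i ∧ inM (lab v) ∧ ¬ mM (lab v) ∧
        ∀ j < lg, v ∉ Oi j) ∧
      Spr g' (Hs κ) (Ds κ) (3 * (2 * m + 1)) (Vq lab a i) O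

/-- `ot.OneRound`, only vertices outside `mM` are missed -/
def OneRound2 (g δ : ℝ) (H : SimpleGraph V) (D dd : ℕ) (lab : V → Lh l m r K K1 S) : Prop :=
  ∀ (τ : Option (ZMod 3)) (i : ZMod 3) (F : SimpleGraph V) (a : ZMod (2 * m + 1)) (h : Fin m)
    (U J : Finset V) (lg : ℕ) (Oi : ℕ → Finset V), τ ≠ some i →
    REnv H F (qr l m S τ D) δ lab (rP l r K K1 S a h τ) (rR l S τ) U J →
    lg * (3 * (2 * m + 1)) ≤ dd →
    (∀ j < lg, Spr g H D (3 * (2 * m + 1)) (Vq lab a i) (Oi j)) →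
    ∃ (M : SimpleGraph V) (O : Finset V), M ≤ F ∧ IsMat M ∧ (∀ v w, M.Adj v w → v ∈ U) ∧
      (∀ v ∈ U, v ∉ O → (nb M v).Nonempty) ∧ O ⊆ U ∧
      (∀ v ∈ O, ce (lab v) = a ∧ pt (lab v) = i ∧ inM (lab v) ∧ ¬ mM (lab v) ∧
        ∀ j < lg, v ∉ Oi j) ∧
      Spr g H D (3 * (2 * m + 1)) (Vq lab a i) O

/-- critical sets of the last rounds contain many vertices of `mM` -/
def EndCap2 (cM δ : ℝ) (H : SimpleGraph V) (D : ℕ) (lab : V → Lh l m r K K1 S) : Prop :=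
  ∀ (i : ZMod 3) (F : SimpleGraph V) (U L C : Finset V) (qq : ℕ),
    REnv H F (qe l D) δ lab (eP l m r K K1 S i) (eR l) U ∅ →
    qe l D ≤ qq → (qq : ℝ) ≤ 101 / 100 * qe l D → L ⊆ U → Crit F qq U L C → Conn F C →
    cM * C.card ≤ ((C.filter (fun v => mM (lab v))).card : ℝ)

end ctx

/-! ## Blocks -/

/-- RND1H2 (block; copy of `stmt_RND1H`, Work/MP_db9399_hc_helper83/RND1H.lean, with one label less:
`5 / (2 l + 1)` instead of `4 / (2 l + 1)`, a larger `l0` if necessary; same hypotheses). -/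
def Stmt_RND1H2 : Prop :=
  ∀ h : ℝ, 0 < h → h ≤ 1 / 10 → ∃ l0 : ℕ, ∀ (l S : ℕ) (g g' R : ℝ), l0 ≤ l → 0 < g → g ≤ h →
    0 < g' → 1 ≤ R → 1000 * (R + 1) * g' ≤ g → ∃ δ : ℝ, 0 < δ ∧
    ∀ m r K K1 : ℕ, 1 ≤ m → ∃ (σ c1 ε0 : ℝ) (d0 : ℕ), 0 < σ ∧ 0 < c1 ∧ 0 < ε0 ∧
    ∀ {V : Type u} [Fintype V] {ι : Type} (Hs : ι → SimpleGraph V) (Ds : ι → ℕ)
      (Dm : ι → ι → ℕ) (b : ℝ) (dd : ℕ) (lab : V → Lh l m r K K1 S),
      (∀ i, d0 ≤ Ds i) → MP_db9399_hc.Hosts g ε0 σ c1 b R Hs Ds Dm lab → (1 + h) * dd ≤ b →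
      OneRoundH2 g' δ Hs Ds dd lab

/-- CAPE2 (block, from `lc.Stmt_T1` and `lh.Stmt_PAT`; compare the first part of `stmt_CAPEH`,
Work/MP_db9399_hc_helper34/CAPEH.lean): take `cM = 1 / (4 (2 l + 1))`. -/
def Stmt_CAPE2 : Prop :=
  ∀ (g : ℝ) (l : ℕ), 0 < g → g ≤ 1 / 10 → 3 ≤ l → ∃ δ cM : ℝ, 0 < δ ∧ 0 < cM ∧ cM ≤ 1 ∧
    ∀ m r K K1 S : ℕ, 1 ≤ m → ∃ (σ c1 ε0 : ℝ) (d0 : ℕ), 0 < σ ∧ 0 < c1 ∧ 0 < ε0 ∧
    ∀ {V : Type u} [Fintype V] (H : SimpleGraph V) (D : ℕ) (lab : V → Lh l m r K K1 S),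
      d0 ≤ D → BL g ε0 H D → LabP H D σ c1 lab → EndCap2 cM δ H D lab

/-- CORE2 (block, from RND1H2, CAPE2; compare Work/MP_db9399_hc/Single.lean,
Work/MP_db9399_hc_helper83/CORE.lean). -/
def Stmt_CORE2 : Prop :=
  ∀ (g : ℝ) (n : ℕ), 0 < g → g ≤ 1 / 10 → ∃ (gd : ℝ) (l0 : ℕ), 0 < gd ∧ gd ≤ g ∧
    ∀ l : ℕ, l0 ≤ l → ∃ δc cM : ℝ, 0 < δc ∧ 0 < cM ∧ cM ≤ 1 ∧ ∀ S : ℕ, ∃ δ : ℝ, 0 < δ ∧
    ∀ m r K K1 : ℕ, 1 ≤ m → ∃ (σ c1 ε0 : ℝ) (d0 : ℕ), 0 < σ ∧ 0 < c1 ∧ 0 < ε0 ∧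
    ∀ {V : Type u} [Fintype V] (H : SimpleGraph V) (d D : ℕ) (lab : V → Lh l m r K K1 S),
      d0 ≤ d → (d : ℝ) ≤ 2 * ((n : ℝ) + 1) * D → D ≤ d → BH g ε0 ((1 + g) * d) H D →
      LabP H D σ c1 lab → OneRound2 gd δ H D d lab ∧ EndCap2 cM δc H D lab

/-- P0ALL2 (block; copy of `stmt_P0ALL`, Work/MP_db9399_ot_helper21/P0ALL.lean, only `step`
changes). -/
def Stmt_P0ALL2 : Prop :=
  ∀ (g gh gd δ : ℝ) (n l m r K K1 S ν : ℕ), 0 < g → 0 < gh → 0 < gd → 0 < δ → δ ≤ 1 / 10 →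
    3 ≤ l → 4 ≤ m → 10000 * ((n : ℝ) + 1) * (2 * (l : ℝ) + 1) ≤ δ * (2 * m + 1) →
    10000 * ((n : ℝ) + 1) * (2 * (l : ℝ) + 1) ≤ δ * (r + 1) →
    10000 * ((n : ℝ) + 1) * (2 * (l : ℝ) + 1) ≤ δ * (K + 1) →
    ∃ (σ ε0 δ2 : ℝ) (d0 : ℕ), 0 < σ ∧ 0 < ε0 ∧ 0 < δ2 ∧
    ∀ {V : Type u} [Fintype V] (G H Q : SimpleGraph V) (Gc : Fin n → SimpleGraph V)
      (d D k w W1 : ℕ) (c1 : ℝ) (UH : Finset V) (c0 : V → Fin k) (EH : SimpleGraph V)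
      (tu : V → Fin k) (lab : V → Lh l m r K K1 S) (e : Ix m w → Fin k)
      (τ : Fin w → Option (ZMod 3)) (ι : Fin w → Option (Fin n)) (ρ : Fin w → ZMod 3)
      (e1 : Fin W1 → Fin k) (sy : Fin W1 → Fin (K1 + 1) × Fin (K1 + 1)) (tp : V → ZMod 3)
      (pal : Fin m × Fin w → Fin (r + 1)) (c : V → Fin k) (wv : V → Fin k → V)
      (Nd : Ix m w → SimpleGraph V), d0 ≤ d → Sit g gh ε0 σ c1 G H Q Gc d D lab →
      OneRound2 gd δ H D d lab → HPre G UH c0 EH tu → Function.Injective e →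
      VCol G UH c0 lab e τ pal c → UPar G H Gc D δ2 UH c0 tu lab e τ ι e1 sy tp c wv →
      NDec ν H Gc UH lab τ ι Nd → (2 * (m : ℝ) + 1) * m * w ≤ d → (∀ s, τ s ≠ some (ρ s)) →
      (∀ i, (3 * (2 * (m : ℝ) + 1)) * (m * (univ.filter (fun s => ρ s = i)).card) ≤ d) →
      ∃ (M : Ix m w → SimpleGraph V) (O : Ix m w → Finset V),
        P0R gd H D UH c0 tu lab e τ ρ e1 tp c wv Nd M O ∧ ∀ x, ∀ v ∈ O x, ¬ mM (lab v)

/-- PEALL2 (block; copy of `stmt_PEALL`, Work/MP_db9399_ot_helper90/PEALL.lean, with `pall η cM`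
instead of `pall η (gd / 40)` and the set `{v | v ∉ UH ∧ mM (lab v)}`; `O x` is disjoint from it). -/
def Stmt_PEALL2 : Prop :=
  ∀ (g gh gd δ cM cE : ℝ) (n l : ℕ), 0 < g → 0 < gh → 0 < gd → gd ≤ 1 / 10 → 0 < δ → 0 < cM →
    cM ≤ 1 → 0 < cE → 3 ≤ l →
    ∃ (K0 : ℕ) (δe : ℝ), 0 < δe ∧ ∀ K1 : ℕ, K0 ≤ K1 → ∃ m0 : ℕ, ∀ m r K S : ℕ, m0 ≤ m →
    ∃ (σ ε0 δ2 : ℝ) (d0 : ℕ), 0 < σ ∧ 0 < ε0 ∧ 0 < δ2 ∧
    ∀ {V : Type u} [Fintype V] (G H Q : SimpleGraph V) (Gc : Fin n → SimpleGraph V)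
      (d D k w W1 ν : ℕ) (c1 : ℝ) (UH : Finset V)
      (c0 : V → Fin k) (EH : SimpleGraph V) (tu : V → Fin k) (lab : V → Lh l m r K K1 S)
      (e : Ix m w → Fin k) (τ : Fin w → Option (ZMod 3)) (ι : Fin w → Option (Fin n))
      (ρ : Fin w → ZMod 3)
      (e1 : Fin W1 → Fin k) (sy : Fin W1 → Fin (K1 + 1) × Fin (K1 + 1)) (tp : V → ZMod 3)
      (c : V → Fin k) (wv : V → Fin k → V) (Nd M : Ix m w → SimpleGraph V)
      (O : Ix m w → Finset V) (Kk : Fin W1 → SimpleGraph V), d0 ≤ d →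
      Sit g gh ε0 σ c1 G H Q Gc d D lab → EndCap2 cM δ H D lab → EndSX cE H D lab →
      HPre G UH c0 EH tu →
      Function.Injective e1 → UPar G H Gc D δ2 UH c0 tu lab e τ ι e1 sy tp c wv →
      NDec ν H Gc UH lab τ ι Nd → P0R gd H D UH c0 tu lab e τ ρ e1 tp c wv Nd M O →
      (∀ x, ∀ v ∈ O x, ¬ mM (lab v)) →
      Lft G H UH lab sy Nd M Kk → (2 * (m : ℝ) + 1) * m * w ≤ d →
      (W1 : ℝ) ≤ δe * D →
      ∃ (M1 : Fin W1 → SimpleGraph V) (O1 : Fin W1 → Finset V),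
        PeR H UH c0 tu lab e τ e1 tp wv Kk M O M1 O1 ∧ ∀ y, ∀ v ∈ O1 y, mM (lab v)

/-- ASM2 (helper1; copy of `stmt_ASM`): also the colours missing at a vertex, and the colours of
the leftover edges are not used at `UH` outside the host. -/
def Stmt_ASM2 : Prop :=
  ∀ {V : Type u} [Fintype V] {n l m r K K1 S : ℕ} (gd ε δ : ℝ) (G H : SimpleGraph V)
    (Gc : Fin n → SimpleGraph V) (d D k w W1 ν : ℕ) (UH : Finset V) (c0 : V → Fin k)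
    (EH : SimpleGraph V) (tu : V → Fin k) (lab : V → Lh l m r K K1 S) (e : Ix m w → Fin k)
    (τ : Fin w → Option (ZMod 3)) (ι : Fin w → Option (Fin n)) (ρ : Fin w → ZMod 3)
    (e1 : Fin W1 → Fin k) (sy : Fin W1 → Fin (K1 + 1) × Fin (K1 + 1))
    (tp : V → ZMod 3) (pal : Fin m × Fin w → Fin (r + 1)) (c : V → Fin k)
    (wv : V → Fin k → V) (Nd M : Ix m w → SimpleGraph V) (O : Ix m w → Finset V)
    (Kk M1 : Fin W1 → SimpleGraph V) (O1 : Fin W1 → Finset V),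
    3 ≤ l → (∀ v, (nb G v).card ≤ d) → Cls ε G H Gc d D →
    (2 * m + 1) * (m * w) + W1 = d + 2 →
    HPre G UH c0 EH tu → Function.Injective e → Function.Injective e1 → (∀ x y, e x ≠ e1 y) →
    (∀ u ∈ UH, ∀ x, τ x.2.2 = some (tp u) → e x ≠ c0 u ∧ e x ≠ tu u) →
    (∀ s, τ s ≠ some (ρ s)) → (∀ s, ι s ≠ none → τ s = none) →
    VCol G UH c0 lab e τ pal c → UPar G H Gc D δ UH c0 tu lab e τ ι e1 sy tp c wv →
    NDec ν H Gc UH lab τ ι Nd → P0R gd H D UH c0 tu lab e τ ρ e1 tp c wv Nd M O →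
    (∀ x, ∀ v ∈ O x, ¬ mM (lab v)) →
    Lft G H UH lab sy Nd M Kk → PeR H UH c0 tu lab e τ e1 tp wv Kk M O M1 O1 →
    (∀ y, ∀ v ∈ O1 y, mM (lab v)) →
    ∃ t : V → V → Fin k, Tot G c t ∧ (∀ v v', EH.Adj v v' → t v v' = tu v) ∧
      (∀ v v', G.Adj v v' → ¬ EH.Adj v v' →
        (∃ x, t v v' = e x ∧ (H.Adj v v' ∨ ∃ i, ι x.2.2 = some i ∧ (Gc i).Adj v v')) ∨
        ∃ y, t v v' = e1 y ∧
          (H.Adj v v' ∨ (v ∉ UH ∧ v' ∉ UH ∧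
            (sp (lab v) = (sy y).1 ∨ sp (lab v) = (sy y).2) ∧
            (sp (lab v') = (sy y).1 ∨ sp (lab v') = (sy y).2)))) ∧
      ∀ v b, (∃ x, e x = b) ∨ (∃ y, e1 y = b) → b ≠ c v → (∀ w, G.Adj v w → t v w ≠ b) →
        (v ∈ UH → ∃ x, e x = b ∧ τ x.2.2 = some (tp v)) ∧
        (v ∉ UH → ¬ mM (lab v) → ∃ x, e x = b ∧ (τ x.2.2 = some (pt (lab v)) ∨
          ρ x.2.2 = pt (lab v)))

end Pool.Agent.Work.MP_db9399_sw
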