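import Pool.Agent.Work.MP_db9399_sw.Lsb
import Pool.Agent.Work.MP_db9399_sl.Interface

/-!
# MP_db9399, PHASE 2 (short spots): the own colours of the vertices of the short spots (owner helper1)

`Sh` = short spots. All outer edges and the own colours of the vertices outside the spots (and of
`UH`) are given. VSHORT: own colours of all short spots at the same time, from LSB. VMIX: all spots.
See `BLUEPRINT.md`.
-/

set_option autoImplicit false

namespace Pool.Agent.Work.MP_db9399_sw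

open Finset Classical
open Pool.Agent.Work.MP_db9399_all (nb)
open Pool.Agent.Work.MP_db9399_dn (IsMat Tot)
open Pool.Agent.Work.MP_db9399_bg (HPre)
open Pool.Agent.Work.MP_db9399_sl (InS Same Gout Gss Gin Gex Out Vert odd)

universe u

section defs
variable {V : Type u} [Fintype V] {k : ℕ}

/-- the short spots -/
noncomputable def shs (d : ℕ) (Ys : Finset (Finset V)) : Finset (Finset V) :=
  Ys.filter (fun Y => Y.card < d)

/-- the own colours of the neighbours of `v` outside the spots and in `UH` -/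
noncomputable def ac (G : SimpleGraph V) (Ys : Finset (Finset V)) (UH : Finset V) (c : V → Fin k)
    (v : V) : Finset (Fin k) := ((nb G v).filter (fun w => InS Ys w → w ∈ UH)).image c

/-- the vertices of `Y` which may get the colour `b` -/
noncomputable def avl (G : SimpleGraph V) (Ys : Finset (Finset V)) (UH : Finset V)
    (c : V → Fin k) (E : V → Finset (Fin k)) (Y : Finset V) (b : Fin k) : Finset V :=
  Y.filter (fun v => v ∉ UH ∧ b ∉ E v ∧ b ∉ ac G Ys UH c v)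

/-- all colours at `v` (`F0 v` for the vertices of `UH`), without the own colour if `v ∉ UH` -/
noncomputable def fst (UH : Finset V) (F0 E : V → Finset (Fin k)) (v : V) : Finset (Fin k) :=
  if v ∈ UH then F0 v else E v

/-- sum of the outer degrees over `Y` -/
noncomputable def wt (G : SimpleGraph V) (d : ℕ) (Y : Finset V) : ℝ :=
  ∑ v ∈ Y, ((d : ℝ) - (nb G v ∩ Y).card)

/-- sum of the outer degrees over the light vertices of `Y` (`Hs` = heavy vertices) -/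
noncomputable def wl (G : SimpleGraph V) (d : ℕ) (Hs Y : Finset V) : ℝ :=
  ∑ v ∈ Y \ Hs, ((d : ℝ) - (nb G v ∩ Y).card)

/-- Hypotheses of VSHORT. `Fy Y` = colours which are not used in `Y`; `Mt` = matching of
nonadjacent vertices of the short spots which get the same colour, `pn Y` = number of these pairs
in `Y`. Every colour outside `Fy Y` may be used at `x d` vertices of `Y`, or (`Y ∈ Sm`) at `y0`
guards in `Y` (`Gd` = guards, outer degree at most `B`, at most `y1` in every spot). `par`: parity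
(see the docstring of `Stmt_VSHORT`). `Hs` = heavy vertices: very few in the spots of `Sm`; there
only the outer degrees of the light vertices are small in average. -/
structure SHH (x η θ T0 y0 y1 B : ℝ) (G EH : SimpleGraph V) (d : ℕ) (Ys Sm : Finset (Finset V))
    (UH Gd Hs : Finset V) (c0 c : V → Fin k) (E F0 : V → Finset (Fin k)) (K0 : Finset (Fin k))
    (Fy : Finset V → Finset (Fin k)) (Mt : SimpleGraph V) (pn : Finset V → ℕ) : Prop where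
  deg : ∀ v, (nb G v).card ≤ d
  dis : ∀ Y ∈ Ys, ∀ Y' ∈ Ys, Y ≠ Y' → Disjoint Y Y'
  low : ∀ Y ∈ Ys, (1 - θ) * d ≤ (Y.card : ℝ)
  inn : ∀ Y ∈ Ys, ∀ v ∈ Y, (1 - θ) * d ≤ ((nb G v ∩ Y).card : ℝ)
  sum : ∀ Y ∈ Ys, wt G d Y ≤ η * d * Y.card
  uh2 : ∀ Y ∈ Ys, (Y ∩ UH).card ≤ 2
  F0K : ∀ v ∈ UH, InS Ys v → F0 v ⊆ K0
  F0d : ∀ v ∈ UH, InS Ys v → (F0 v).card + (nb (Gin G EH Ys) v).card = d + 1
  F0E : ∀ v ∈ UH, InS Ys v → E v ∩ K0 ⊆ F0 v
  F0c : ∀ v ∈ UH, InS Ys v → c0 v ∈ K0 → c0 v ∈ F0 v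
  FyK : ∀ Y ∈ shs d Ys, Fy Y ⊆ K0
  Fyc : ∀ Y ∈ shs d Ys, (Fy Y).card + Y.card ≤ d + 2 + pn Y
  Fyu : ∀ Y ∈ shs d Ys, ((Fy Y).card : ℝ) ≤ 10 * η * d
  par : ∀ Y ∈ shs d Ys, (Fy Y).card ≤ 2 * pn Y + ((K0 \ (Fy Y ∪ (Y ∩ UH).image c0)).filter
    (fun b => Odd (Y.filter (fun v => b ∉ fst UH F0 E v)).card)).card
  mat : IsMat Mt
  mta : ∀ v w, Mt.Adj v w → Same (shs d Ys) v w ∧ ¬ G.Adj v w ∧ v ∉ UH ∧ v ∉ Gd
  mtn : ∀ Y ∈ shs d Ys, (Y.filter (fun v => (nb Mt v).Nonempty)).card = 2 * pn Y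
  pnu : ∀ Y ∈ shs d Ys, (pn Y : ℝ) ≤ 10 * η * d
  big : ∀ Y ∈ shs d Ys, Y ∉ Sm → ∀ b ∈ K0, b ∉ Fy Y → b ∉ (Y ∩ UH).image c0 →
    x * d ≤ ((avl G Ys UH c E Y b).card : ℝ)
  sml : ∀ Y ∈ Sm, Y ∈ shs d Ys ∧ wl G d Hs Y ≤ T0 * Y.card ∧ ((Y ∩ Gd).card : ℝ) ≤ y1
  hsc : ∀ Y ∈ Sm, 10 ^ 4 * (Y ∩ Hs).card ≤ Y.card
  gds : ∀ Y ∈ Sm, ∀ b ∈ K0, b ∉ Fy Y → b ∉ (Y ∩ UH).image c0 →
    y0 ≤ ((avl G Ys UH c E Y b ∩ Gd).card : ℝ)
  gdd : ∀ v ∈ Gd, (∃ Y ∈ Sm, v ∈ Y) ∧ ((nb G v).filter (fun w => ¬ Same Ys v w)).card ≤ B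
  gdi : ∀ v ∈ Gd, ∀ w ∈ Gd, ¬ (Gss G EH Ys).Adj v w
  gde : ∀ Y ∈ shs d Ys, ((∑ v ∈ Y, (nb (Gss G EH Ys) v ∩ Gd).card : ℕ) : ℝ) ≤
    x / 10 ^ 5 * y0 * Y.card

end defs

/-- CHO (block, pure combinatorics): the choice of the colours at one short spot `Y`. `m = |Y|`,
`w2 = |Y ∩ UH|`, `cw` = own colours of `Y ∩ UH`, `pn` = number of glued pairs, `n i` = number of
vertices of the third `i` which are not glued and not in `UH`, `Q0` = colours missing (so far) at an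
odd number of vertices of `Y`, `Hv` = heavy colours, `hi b` = third for the heavy colour `b`, `P i` =
palette avoided by the third `i` (`C i`), `Fy` = colours which are not used. Result: `U` = unused
colours, `K i` = colours for the third `i`, `i0` = third for the glued pairs, `W` = colours for the
glued pairs. Put `Q1 = K0 \ Q0`, `|U| = d + 2 - |cw ∩ K0| - m + w2 + pn ≥ |Fy \ cw|`.
CASE A: `|Q1| ≥ 10 ^ 5 θ d`: `U \ Fy ⊆ Q1`, `W ⊆ Q1`. For `Pc ⊆ W` (colours of the pairs) the number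
on the right is at least `(|U| - |Fy|) + pn + |Q0 \ (Fy ∪ cw)| ≥ d + 2 - m`.
CASE B: `|Q1| < 10 ^ 5 θ d`: `W` = all light colours of `K i0`; the number is `≥ |Q0| - |U| - pn - 2`.
Light colours of `P i` go to the third `i + 1` (there is room, `π < 1 / 3`), the others fill up. In
case A one of `Q1 ∩ P 0`, `Q1 ∩ P 1`, `Q1 ∩ P 2`, rest of `Q1` is large: `i0` = its third; the rest of
`Q1` is put into one third as far as there is room. -/
def Stmt_CHO : Prop :=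
  ∀ π : ℝ, 1 / 4 ≤ π → π < 1 / 3 → ∃ (θ δ1 : ℝ) (d0 : ℕ), 0 < θ ∧ θ ≤ 1 / 10 ^ 7 ∧ 0 < δ1 ∧
    ∀ {D : Type} (d m pn w2 : ℕ) (n : Fin 3 → ℕ) (K0 Fy cw Q0 Hv : Finset D)
      (P : Fin 3 → Finset D) (hi : D → Fin 3), d0 ≤ d → K0.card = d + 2 → cw.card ≤ w2 → w2 ≤ 2 →
      n 0 + n 1 + n 2 + 2 * pn + w2 = m → m < d → (1 - θ) * d ≤ (m : ℝ) →
      (∀ i, |(n i : ℝ) - m / 3| ≤ δ1 * d) → Fy ⊆ K0 → Fy.card + m ≤ d + 2 + pn →
      (pn : ℝ) ≤ δ1 * d → ((Fy.card) : ℝ) ≤ δ1 * d → ((Hv.card) : ℝ) ≤ δ1 * d → Q0 ⊆ K0 →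
      Fy.card ≤ 2 * pn + (Q0 \ (Fy ∪ cw)).card → (∀ i j, i ≠ j → Disjoint (P i) (P j)) →
      (∀ i, ((P i).card : ℝ) ≤ π * d + 1) →
      ∃ (U W : Finset D) (i0 : Fin 3) (K : Fin 3 → Finset D), Fy \ cw ⊆ U ∧
        (∀ i j, i ≠ j → Disjoint (K i) (K j)) ∧ (∀ i, K i ⊆ K0 \ (U ∪ cw)) ∧
        (∀ i, (K i).card = n i + if i = i0 then pn else 0) ∧
        (∀ i, ∀ b ∈ K i, b ∈ Hv → hi b = i) ∧ (∀ i, ∀ b ∈ K i, b ∉ Hv → b ∉ P i) ∧
        W ⊆ K i0 \ Hv ∧ 10 ^ 4 * θ * d ≤ (W.card : ℝ) ∧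
        (∀ b ∈ K0, b ∉ U → b ∉ cw → ∃ i, b ∈ K i) ∧
        ∀ Pc ⊆ W, Pc.card = pn → d + 2 ≤ m + (K0.filter (fun b =>
          (b ∉ Q0 ∧ (b ∈ U ∨ b ∈ Pc ∨ b ∈ cw)) ∨ (b ∈ Q0 ∧ b ∉ U ∧ b ∉ Pc ∧ b ∉ cw))).card

/-- VSHORT (block, from LSB and CHO): the own colours of the vertices of all short spots.
`m = |Y|`. POSITIONS: the vertices of the short spots outside `UH`, the two vertices of an edge of
`Mt` glued (special positions `X`); PARTS: spot and third (`p v`; `i0` of CHO for all glued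
positions). `Q0` = colours of `K0` missing (w.r.t. `fst`) at an odd number of vertices of `Y`,
`cw = c0 (Y ∩ UH)`. LIGHT colours: `#{v ∈ Y : b ∈ E v ∪ ac v} ≤ m / 400`, the others are HEAVY (at most
`10 ^ 3 wt / m`; for `Y ∈ Sm` at most `10 ^ 3 wl / m ≤ 10 ^ 3 T0`, since at most `m / 10 ^ 4` vertices
are in `Hs`), `hi b` = third which contains most of the list of `b` (`avl` without the glued
vertices, resp. `avl ∩ Gd`), `L` = list in this third. `W s` = `W` of CHO. A glued pair removes its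
colour from two vertices, so at the end a colour is missing at an even number of vertices iff it is
not in `Q0` and unused, at a pair, or in `cw`, or in `Q0` and at one vertex outside `UH`.
`μ = 4 / m` at normal positions for light colours, `8 / (x d)` resp. `8 / y0` for heavy ones,
`1 / (10 ^ 3 θ d)` at special positions. `Fb v = E v ∪ ac v`, `R` = edges between different short
spots (for a glued position: of both vertices). Row and column sums: see BLUEPRINT. `Z'` = `Z`, the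
glued vertices and the vertices with heavy colours. -/
def Stmt_VSHORT : Prop :=
  ∀ (δ π : ℝ), 0 < δ → δ ≤ 1 / 1000 → 1 / 4 ≤ π → π < 1 / 3 →
    ∃ (δ1 θ : ℝ), 0 < δ1 ∧ 0 < θ ∧ ∀ x : ℝ, 0 < x → x ≤ θ → ∃ (η : ℝ) (d0 : ℕ), 0 < η ∧
    ∀ {V : Type u} [Fintype V] {k : ℕ} (T0 y0 y1 B : ℝ) (G EH : SimpleGraph V) (d : ℕ)
      (Ys Sm : Finset (Finset V)) (UH Gd Hs : Finset V) (c0 tu c : V → Fin k) (t : V → V → Fin k)
      (E F0 : V → Finset (Fin k)) (K0 : Finset (Fin k)) (C : Fin 3 → Finset (Fin k))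
      (p : V → Fin 3) (a : V → Bool) (Z : Finset V) (Fy : Finset V → Finset (Fin k))
      (Mt : SimpleGraph V) (pn : Finset V → ℕ), d0 ≤ d → 1 ≤ T0 → 1 ≤ B → 1 ≤ y1 →
      10 ^ 9 * T0 ≤ x * y0 → 10 ^ 9 * (y1 * B) ≤ x * d → HPre G UH c0 EH tu →
      (∀ j, ((C j).card : ℝ) ≤ π * d + 1) →
      Out δ1 π G (Gex G Ys) ⊥ EH d Ys UH c0 tu c t E K0 C p a Z →
      SHH x η θ T0 y0 y1 B G EH d Ys Sm UH Gd Hs c0 c E F0 K0 Fy Mt pn →
      ∃ (c' : V → Fin k) (Z' : Finset V),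
        (∀ v, (InS (shs d Ys) v → v ∈ UH) → c' v = c v) ∧ Z ⊆ Z' ∧
        (∀ v ∈ Z', v ∉ Z → InS (shs d Ys) v) ∧
        (∀ Y ∈ shs d Ys, ((Y ∩ Z').card : ℝ) ≤ δ * d) ∧
        (∀ v, InS (shs d Ys) v → v ∉ UH → c' v ∈ K0 ∧ c' v ∉ E v ∧ (v ∉ Z' → c' v ∉ C (p v))) ∧
        (∀ v w, G.Adj v w → (InS Ys v → InS (shs d Ys) v ∨ v ∈ UH) →
          (InS Ys w → InS (shs d Ys) w ∨ w ∈ UH) → c' v ≠ c' w) ∧
        (∀ Y ∈ shs d Ys, ∀ b, (Y.filter (fun v => v ∉ UH ∧ c' v = b)).card ≤ 2) ∧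
        ∀ Y ∈ shs d Ys, (odd Y (fun v => if v ∈ UH then F0 v else insert (c' v) (E v)) K0).card ≤
          Y.card

/-- VMIX (block, from VSHORT and `sl.Stmt_VSEQ`): the own colours of all spots. First VSHORT, then
VSEQ for the spots with at least `d` vertices in the graph without the edges inside short spots
(except `EH`), where the vertices of the short spots are vertices outside the spots. -/
def Stmt_VMIX : Prop :=
  ∀ (δ π : ℝ), 0 < δ → δ ≤ 1 / 1000 → 1 / 4 ≤ π → π < 1 / 3 →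
    ∃ (δ1 θ : ℝ), 0 < δ1 ∧ 0 < θ ∧ ∀ x : ℝ, 0 < x → x ≤ θ → ∃ (η : ℝ) (d0 : ℕ), 0 < η ∧
    ∀ {V : Type u} [Fintype V] {k : ℕ} (T0 y0 y1 B : ℝ) (G EH : SimpleGraph V) (d : ℕ)
      (Ys Sm : Finset (Finset V)) (UH Gd Hs : Finset V) (c0 tu c : V → Fin k) (t : V → V → Fin k)
      (E F0 : V → Finset (Fin k)) (K0 : Finset (Fin k)) (C : Fin 3 → Finset (Fin k))
      (p : V → Fin 3) (a : V → Bool) (Z : Finset V) (Fy : Finset V → Finset (Fin k))
      (Mt : SimpleGraph V) (pn : Finset V → ℕ), d0 ≤ d → 1 ≤ T0 → 1 ≤ B → 1 ≤ y1 →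
      10 ^ 9 * T0 ≤ x * y0 → 10 ^ 9 * (y1 * B) ≤ x * d → HPre G UH c0 EH tu →
      (∀ j, ((C j).card : ℝ) ≤ π * d + 1) →
      (∀ Y ∈ Ys, (Y.card : ℝ) ≤ (1 + θ) * d) →
      (∀ Y ∈ Ys, ∀ v ∈ Y, ((Y \ nb G v).card : ℝ) ≤ θ * d) →
      Out δ1 π G (Gex G Ys) ⊥ EH d Ys UH c0 tu c t E K0 C p a Z →
      SHH x η θ T0 y0 y1 B G EH d Ys Sm UH Gd Hs c0 c E F0 K0 Fy Mt pn →
      ∃ (c' : V → Fin k) (Z' : Finset V) (F : V → Finset (Fin k)),
        (∀ v, ¬ InS Ys v → c' v = c v) ∧ Z ⊆ Z' ∧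
        Vert δ G EH d Ys UH c0 tu c' E K0 C p Z' F

end Pool.Agent.Work.MP_db9399_sw
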